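import Pool.Agent.H44.SRG1

open MeasureTheory Pool.Agent.H44.SRG

namespace Pool.Agent.Results.MP_1af0ac_pr.Q1False

theorem result : ∃ μ : Measure ((ℤ × ℕ → ℤ × ℕ → ℝ) × (ℤ × ℕ)), Stationary μ ∧ PolyGrowth μ ∧
    ∀ᵐ a ∂μ, ∃ h : ℕ → ℤ × ℕ → ℝ, LinearIndependent ℝ h ∧ ∀ i, h i ∈ HH a.1 a.2 3 :=
  ⟨mu, srg_main⟩

end Pool.Agent.Results.MP_1af0ac_pr.Q1False
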